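import Pool.Agent.R135.WM.Stm

/-! Project WM, piece C1 (second independent proof). -/

set_option autoImplicit false

namespace Pool.Agent.R135.WM

open Set Topology

namespace C1b

lemma marks (K M : Set ℝ) (hK : IsCompact K) (hint : interior K = ∅) (hM : M.Countable)
    (hne : K.Nonempty) :
    ∃ m : ℕ → ℝ, (∀ i, m i ∈ K) ∧ (∀ x ∈ K, x ∈ M → ∃ i, m i = x) ∧
      ∀ x ∈ K, ∀ y ∈ K, x < y → ∃ i, x ≤ m i ∧ m i ≤ y := by
  classical
  obtain ⟨x0, hx0⟩ := hne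
  have hd : Dense Kᶜ := interior_eq_empty_iff_dense_compl.1 hint
  obtain ⟨C, hC⟩ : ∃ C : Set ℝ, C = (fun q : ℚ => sSup (K ∩ Iic (q : ℝ))) ''
    {q | (K ∩ Iic (q : ℝ)).Nonempty} := ⟨_, rfl⟩
  have hCc : C.Countable := by rw [hC]; exact (Set.to_countable _).image _
  have hS : (insert x0 ((M ∩ K) ∪ C)).Countable :=
    ((hM.mono inter_subset_left).union hCc).insert _
  obtain ⟨m, hm⟩ := hS.exists_eq_range (insert_nonempty _ _)
  have hCK : ∀ q : ℚ, (K ∩ Iic (q : ℝ)).Nonempty →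
      sSup (K ∩ Iic (q : ℝ)) ∈ K ∩ Iic (q : ℝ) := fun q hq =>
    (hK.inter_right isClosed_Iic).sSup_mem hq
  refine ⟨m, fun i => ?_, fun x hx hxM => ?_, fun x hx y hy hxy => ?_⟩
  · have h0 : m i ∈ insert x0 ((M ∩ K) ∪ C) := by rw [hm]; exact mem_range_self i
    rcases h0 with h | h | h
    · rw [h]; exact hx0
    · exact h.2
    · rw [hC] at h
      obtain ⟨q, hq, hqe⟩ := h
      rw [← hqe]; exact (hCK q hq).1
  · have h0 : x ∈ insert x0 ((M ∩ K) ∪ C) := Or.inr (Or.inl ⟨hxM, hx⟩)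
    rw [hm] at h0
    exact h0
  · obtain ⟨z, hz1, hz2⟩ : ((Ioo x y) ∩ Kᶜ).Nonempty :=
      hd.inter_open_nonempty _ isOpen_Ioo (nonempty_Ioo.2 hxy)
    have hop : IsOpen (Ioo x y ∩ Kᶜ) := isOpen_Ioo.inter hK.isClosed.isOpen_compl
    obtain ⟨q, hq⟩ := Rat.denseRange_cast.exists_mem_open hop ⟨z, hz1, hz2⟩
    have hne : (K ∩ Iic (q : ℝ)).Nonempty := ⟨x, hx, hq.1.1.le⟩
    have h1 := hCK q hne
    have h2 : x ≤ sSup (K ∩ Iic (q : ℝ)) :=
      le_csSup (hK.inter_right isClosed_Iic).bddAbove ⟨hx, hq.1.1.le⟩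
    have h0 : sSup (K ∩ Iic (q : ℝ)) ∈ insert x0 ((M ∩ K) ∪ C) :=
      Or.inr (Or.inr (by rw [hC]; exact ⟨q, hne, rfl⟩))
    rw [hm] at h0
    obtain ⟨i, hi⟩ := h0
    exact ⟨i, by rw [hi]; exact h2, by rw [hi]; exact (show _ ≤ (q : ℝ) from h1.2).trans hq.1.2.le⟩

/-- the specification of the cuts -/
def Spec (K : Set ℝ) (m : ℕ → ℝ) (s : ℕ) (I : ℝ × ℝ) (z : ℝ) : Prop :=
  ((∃ j, I.1 < m j ∧ m j < I.2) → z ∉ K ∧ I.1 < z ∧ z < I.2 ∧
    ∃ j, (I.1 < m j ∧ m j < I.2) ∧ (∀ i < j, ¬ (I.1 < m i ∧ m i < I.2)) ∧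
      (Even s → m j < z ∧ z < m j + (1 / 2 : ℝ) ^ s) ∧
      (¬ Even s → z < m j ∧ m j - (1 / 2 : ℝ) ^ s < z)) ∧
  ((¬ ∃ j, I.1 < m j ∧ m j < I.2) → z = I.1)

lemma cuts (K : Set ℝ) (hint : interior K = ∅) (m : ℕ → ℝ) :
    ∃ ρ : ℕ → ℝ × ℝ → ℝ, ∀ s I, Spec K m s I (ρ s I) := by
  classical
  have hd : Dense Kᶜ := interior_eq_empty_iff_dense_compl.1 hint
  have pick : ∀ u v : ℝ, u < v → ∃ z, z ∉ K ∧ u < z ∧ z < v := by
    intro u v huv
    obtain ⟨z, hz1, hz2⟩ := hd.inter_open_nonempty _ isOpen_Ioo (nonempty_Ioo.2 huv)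
    exact ⟨z, hz2, hz1.1, hz1.2⟩
  have h : ∀ s (I : ℝ × ℝ), ∃ z, Spec K m s I z := by
    intro s I
    by_cases hex : ∃ j, I.1 < m j ∧ m j < I.2
    · have hj := Nat.find_spec hex
      have hmin : ∀ i < Nat.find hex, ¬ (I.1 < m i ∧ m i < I.2) := fun i hi => Nat.find_min hex hi
      have hp : (0 : ℝ) < (1 / 2 : ℝ) ^ s := by positivity
      by_cases hs : Even s
      · obtain ⟨z, hz1, hz2, hz3⟩ := pick (m (Nat.find hex))
          (min I.2 (m (Nat.find hex) + (1 / 2 : ℝ) ^ s)) (lt_min hj.2 (by linarith))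
        have h1 := hz3.trans_le (min_le_left _ _)
        have h2 := hz3.trans_le (min_le_right _ _)
        exact ⟨z, fun _ => ⟨hz1, hj.1.trans hz2, h1, Nat.find hex, hj, hmin,
          fun _ => ⟨hz2, h2⟩, fun h => absurd hs h⟩, fun h => absurd hex h⟩
      · obtain ⟨z, hz1, hz2, hz3⟩ := pick (max I.1 (m (Nat.find hex) - (1 / 2 : ℝ) ^ s))
          (m (Nat.find hex)) (max_lt hj.1 (by linarith))
        have h1 := (le_max_left _ _).trans_lt hz2
        have h2 := (le_max_right _ _).trans_lt hz2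
        exact ⟨z, fun _ => ⟨hz1, h1, hz3.trans hj.2, Nat.find hex, hj, hmin,
          fun h => absurd h hs, fun _ => ⟨hz3, h2⟩⟩, fun h => absurd hex h⟩
    · exact ⟨I.1, fun h => absurd h hex, fun _ => rfl⟩
  choose ρ hρ using h
  exact ⟨ρ, hρ⟩

open Classical in
/-- one step -/
noncomputable def stp (ρ : ℕ → ℝ × ℝ → ℝ) (s : ℕ) (I : ℝ × ℝ) (x : ℝ) : ℝ × ℝ :=
  if ρ s I < x then (ρ s I, I.2) else (I.1, ρ s I)

/-- the intervals -/
noncomputable def st (ρ : ℕ → ℝ × ℝ → ℝ) (I0 : ℝ × ℝ) (x : ℝ) : ℕ → ℝ × ℝ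
  | 0 => I0
  | s + 1 => stp ρ s (st ρ I0 x s) x

lemma stay {K : Set ℝ} {m : ℕ → ℝ} {ρ : ℕ → ℝ × ℝ → ℝ} (hρ : ∀ s I, Spec K m s I (ρ s I))
    {I : ℕ → ℝ × ℝ} {x : ℝ} (hI : ∀ s, I (s + 1) = stp ρ s (I s) x) {i : ℕ}
    (hi : ∀ s, (I s).1 < m i ∧ m i < (I s).2) :
    ∃ j s0, (∀ s ≥ s0, (ρ s (I s) < x ↔ ¬ Even s)) ∧
      ∀ z, (∀ s, (I s).1 < z ∧ z < (I s).2) → z = m j := by
  classical
  have hex : ∀ s, ∃ j, (I s).1 < m j ∧ m j < (I s).2 := fun s => ⟨i, hi s⟩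
  have hdown : ∀ s j, ((I (s + 1)).1 < m j ∧ m j < (I (s + 1)).2) →
      ((I s).1 < m j ∧ m j < (I s).2) := by
    intro s j h
    obtain ⟨-, h1, h2, -⟩ := (hρ s (I s)).1 (hex s)
    rw [hI s] at h
    unfold stp at h
    split_ifs at h
    · exact ⟨h1.trans h.1, h.2⟩
    · exact ⟨h.1, h.2.trans h2⟩
  have hmono : ∀ s, Nat.find (hex s) ≤ Nat.find (hex (s + 1)) := fun s =>
    Nat.find_min' _ (hdown s _ (Nat.find_spec (hex (s + 1))))
  have hmono' : Monotone fun s => Nat.find (hex s) := monotone_nat_of_le_succ hmono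
  have hbd : ∀ s, Nat.find (hex s) ≤ i := fun s => Nat.find_min' _ (hi s)
  obtain ⟨s0, hs0⟩ : ∃ s0, ∀ s ≥ s0, Nat.find (hex s) = Nat.find (hex s0) := by
    by_contra hcon
    push Not at hcon
    have hall : ∀ n : ℕ, ∃ s, n ≤ Nat.find (hex s) := by
      intro n
      induction n with
      | zero => exact ⟨0, Nat.zero_le _⟩
      | succ n ih =>
        obtain ⟨s, hs⟩ := ih
        obtain ⟨s', hs', hne⟩ := hcon s
        have h1 : Nat.find (hex s) ≤ Nat.find (hex s') := hmono' hs'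
        exact ⟨s', by omega⟩
    obtain ⟨s, hs⟩ := hall (i + 1)
    have := hbd s
    omega
  obtain ⟨j, hj⟩ : ∃ j, j = Nat.find (hex s0) := ⟨_, rfl⟩
  have hfin : ∀ s ≥ s0, ((I (s + 1)).1 < m j ∧ m j < (I (s + 1)).2) := by
    intro s hs
    have h1 := Nat.find_spec (hex (s + 1))
    rw [hs0 (s + 1) (by omega), ← hj] at h1
    exact h1
  have hcut : ∀ s ≥ s0, (Even s → m j < ρ s (I s) ∧ ρ s (I s) < m j + (1 / 2 : ℝ) ^ s) ∧
      (¬ Even s → ρ s (I s) < m j ∧ m j - (1 / 2 : ℝ) ^ s < ρ s (I s)) := by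
    intro s hs
    obtain ⟨-, -, -, j', h1, h2, h3, h4⟩ := (hρ s (I s)).1 (hex s)
    have e1 : Nat.find (hex s) = j' := (Nat.find_eq_iff (hex s)).2 ⟨h1, h2⟩
    have e2 : j' = j := by rw [← e1, hs0 s hs, hj]
    rw [e2] at h3 h4
    exact ⟨h3, h4⟩
  have hbit : ∀ s ≥ s0, (Even s → ¬ ρ s (I s) < x ∧ (I (s + 1)).2 < m j + (1 / 2 : ℝ) ^ s) ∧
      (¬ Even s → ρ s (I s) < x ∧ m j - (1 / 2 : ℝ) ^ s < (I (s + 1)).1) := by
    intro s hs
    have h1 := hfin s hs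
    obtain ⟨h2, h3⟩ := hcut s hs
    rw [hI s] at h1 ⊢
    unfold stp at h1 ⊢
    constructor
    · intro he
      have h4 := h2 he
      by_cases hx : ρ s (I s) < x
      · rw [if_pos hx] at h1
        exact absurd h1.1 (not_lt.2 h4.1.le)
      · rw [if_neg hx]
        exact ⟨hx, h4.2⟩
    · intro he
      have h4 := h3 he
      by_cases hx : ρ s (I s) < x
      · rw [if_pos hx]
        exact ⟨hx, h4.2⟩
      · rw [if_neg hx] at h1
        exact absurd h1.2 (not_lt.2 h4.1.le)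
  refine ⟨j, s0, fun s hs => ⟨fun h he => ((hbit s hs).1 he).1 h, fun h => ((hbit s hs).2 h).1⟩,
    fun z hz => ?_⟩
  have small : ∀ ε : ℝ, 0 < ε → ∃ N : ℕ, ∀ s ≥ N, (1 / 2 : ℝ) ^ s < ε := by
    intro ε hε
    obtain ⟨N, hN⟩ := exists_pow_lt_of_lt_one hε (by norm_num : (1 / 2 : ℝ) < 1)
    exact ⟨N, fun s hs => lt_of_le_of_lt
      (pow_le_pow_of_le_one (by norm_num) (by norm_num) hs) hN⟩
  rcases lt_trichotomy z (m j) with h | h | h
  · exfalso
    obtain ⟨N, hN⟩ := small (m j - z) (by linarith)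
    have h1 := hN (2 * (s0 + N) + 1) (by omega)
    have h2 := ((hbit (2 * (s0 + N) + 1) (by omega)).2 (by
      rw [Nat.not_even_iff_odd]; exact ⟨s0 + N, rfl⟩)).2
    have h3 := (hz (2 * (s0 + N) + 1 + 1)).1
    linarith
  · exact h
  · exfalso
    obtain ⟨N, hN⟩ := small (z - m j) (by linarith)
    have h1 := hN (2 * (s0 + N)) (by omega)
    have h2 := ((hbit (2 * (s0 + N)) (by omega)).1 (even_two_mul _)).2
    have h3 := (hz (2 * (s0 + N) + 1)).2
    linarith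

end C1b

open C1b in
theorem c1b : StmC1 := by
  intro K M hK hint hM
  classical
  rcases K.eq_empty_or_nonempty with rfl | hne
  · exact ⟨fun _ _ => false, by simp, by simp, by simp⟩
  obtain ⟨m, hmK, hmM, hmd⟩ := marks K M hK hint hM hne
  obtain ⟨ρ, hρ⟩ := cuts K hint m
  obtain ⟨B, hB⟩ := hK.isBounded.exists_norm_le
  obtain ⟨I0, hI0⟩ : ∃ I0 : ℝ × ℝ, I0 = (-(B + 1), B + 1) := ⟨_, rfl⟩
  have inv : ∀ x ∈ K, ∀ s, ((st ρ I0 x s).1 < x ∧ x < (st ρ I0 x s).2) ∧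
      x ≠ ρ s (st ρ I0 x s) := by
    have hne : ∀ x ∈ K, ∀ s, ((st ρ I0 x s).1 < x ∧ x < (st ρ I0 x s).2) →
        x ≠ ρ s (st ρ I0 x s) := by
      intro x hx s h heq
      by_cases hex : ∃ j, (st ρ I0 x s).1 < m j ∧ m j < (st ρ I0 x s).2
      · exact ((hρ s (st ρ I0 x s)).1 hex).1 (heq ▸ hx)
      · have h1 := (hρ s (st ρ I0 x s)).2 hex
        rw [← heq] at h1
        exact h.1.ne' h1
    intro x hx s
    induction s with
    | zero =>
      have h1 : (st ρ I0 x 0).1 < x ∧ x < (st ρ I0 x 0).2 := by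
        have h2 := hB x hx
        rw [Real.norm_eq_abs, abs_le] at h2
        show I0.1 < x ∧ x < I0.2
        rw [hI0]
        exact ⟨by linarith [h2.1], by linarith [h2.2]⟩
      exact ⟨h1, hne x hx 0 h1⟩
    | succ s ih =>
      have h1 : (st ρ I0 x (s + 1)).1 < x ∧ x < (st ρ I0 x (s + 1)).2 := by
        show (stp ρ s (st ρ I0 x s) x).1 < x ∧ x < (stp ρ s (st ρ I0 x s) x).2
        unfold stp
        by_cases hx' : ρ s (st ρ I0 x s) < x
        · rw [if_pos hx']; exact ⟨hx', ih.1.2⟩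
        · rw [if_neg hx']; exact ⟨ih.1.1, lt_of_le_of_ne (not_lt.1 hx') ih.2⟩
      exact ⟨h1, hne x hx (s + 1) h1⟩
  obtain ⟨β, hβ⟩ : ∃ β : ℝ → ℕ → Bool, β = fun x s => decide (ρ s (st ρ I0 x s) < x) := ⟨_, rfl⟩
  have hβi : ∀ x s, β x s = true ↔ ρ s (st ρ I0 x s) < x := by
    intro x s; rw [hβ]; simp
  have same : ∀ x y s, (∀ r < s, β x r = β y r) → st ρ I0 x s = st ρ I0 y s := by
    intro x y s
    induction s with
    | zero => intro _; rfl
    | succ s ih =>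
      intro h
      have h1 := ih fun r hr => h r (by omega)
      have h2 := h s (by omega)
      show stp ρ s (st ρ I0 x s) x = stp ρ s (st ρ I0 y s) y
      have h3 : (ρ s (st ρ I0 x s) < x) ↔ (ρ s (st ρ I0 y s) < y) := by
        rw [← hβi, ← hβi, h2]
      rw [h1] at h3 ⊢
      unfold stp
      by_cases hx' : ρ s (st ρ I0 y s) < y
      · rw [if_pos hx', if_pos (h3.2 hx')]
      · rw [if_neg hx', if_neg (fun h => hx' (h3.1 h))]
  refine ⟨β, fun x hx y hy hxy => ?_, fun s x hx => ?_, fun x hx hxM => ?_⟩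
  · have hex : ∃ s, β x s ≠ β y s := by
      by_contra hcon
      push Not at hcon
      have hst : ∀ s, st ρ I0 x s = st ρ I0 y s := fun s => same x y s fun r _ => hcon r
      obtain ⟨i, hi1, hi2⟩ := hmd x hx y hy hxy
      obtain ⟨j, s0, -, h2⟩ := stay hρ (I := st ρ I0 x) (x := x) (fun s => rfl) (i := i) (fun s =>
        ⟨(inv x hx s).1.1.trans_le hi1, hi2.trans_lt (by rw [hst s]; exact (inv y hy s).1.2)⟩)
      have e1 := h2 x fun s => (inv x hx s).1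
      have e2 := h2 y fun s => by rw [hst s]; exact (inv y hy s).1
      linarith
    refine ⟨Nat.find hex, fun r hr => not_not.1 (Nat.find_min hex hr), ?_⟩
    have h1 := same x y (Nat.find hex) fun r hr => not_not.1 (Nat.find_min hex hr)
    have h2 := Nat.find_spec hex
    generalize Nat.find hex = s at h1 h2
    have h3 : β x s = true → β y s = true := by
      rw [hβi, hβi, ← h1]
      intro h
      exact h.trans hxy
    revert h2 h3
    cases β x s <;> cases β y s <;> simp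
  · have key : ∀ s, ∃ ε > 0, ∀ y ∈ K, |y - x| < ε → st ρ I0 y s = st ρ I0 x s := by
      intro s
      induction s with
      | zero => exact ⟨1, one_pos, fun y _ _ => rfl⟩
      | succ s ih =>
        obtain ⟨ε, hε, h⟩ := ih
        have hd := (inv x hx s).2
        refine ⟨min ε |x - ρ s (st ρ I0 x s)|, lt_min hε (abs_pos.2 (sub_ne_zero.2 hd)),
          fun y hy hyx => ?_⟩
        have h1 := h y hy (hyx.trans_le (min_le_left _ _))
        have h2 := hyx.trans_le (min_le_right _ _)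
        show stp ρ s (st ρ I0 y s) y = stp ρ s (st ρ I0 x s) x
        rw [h1]
        unfold stp
        rw [abs_lt] at h2
        by_cases hx' : ρ s (st ρ I0 x s) < x
        · rw [abs_of_pos (by linarith)] at h2
          rw [if_pos hx', if_pos (by linarith [h2.1])]
        · rw [abs_of_nonpos (by linarith)] at h2
          rw [if_neg hx', if_neg (by linarith [h2.2])]
    obtain ⟨ε, hε, h⟩ := key s
    have hd := (inv x hx s).2
    refine ⟨min ε |x - ρ s (st ρ I0 x s)|, lt_min hε (abs_pos.2 (sub_ne_zero.2 hd)),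
      fun y hy hyx => ?_⟩
    have h1 := h y hy (hyx.trans_le (min_le_left _ _))
    have h2 := hyx.trans_le (min_le_right _ _)
    rw [Bool.eq_iff_iff, hβi, hβi, h1]
    rw [abs_lt] at h2
    by_cases hx' : ρ s (st ρ I0 x s) < x
    · rw [abs_of_pos (by linarith)] at h2
      exact ⟨fun _ => hx', fun _ => by linarith [h2.1]⟩
    · rw [abs_of_nonpos (by linarith)] at h2
      exact ⟨fun h3 => absurd h3 (by linarith [h2.2]), fun h3 => absurd h3 hx'⟩
  · obtain ⟨i, hi⟩ := hmM x hx hxM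
    obtain ⟨j, s0, h1, -⟩ := stay hρ (I := st ρ I0 x) (x := x) (fun s => rfl) (i := i) (fun s => by
      rw [hi]; exact (inv x hx s).1)
    refine ⟨s0, fun s hs => ?_⟩
    rw [Bool.eq_iff_iff, hβi, hβi, h1 (s + 2) (by omega), h1 s hs]
    simp [Nat.even_add]

end Pool.Agent.R135.WM
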