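import Pool.Agent.R135.WM.Stm

/-! WM-COL: collapse the constancy intervals of a continuous function. -/

namespace Pool.Agent.R964.WM

open Set Topology Filter Pool.Agent.R135.WM

noncomputable def O (k : ℝ → ℝ) (p x : ℝ) : ℝ :=
  sSup ((fun t : ℝ => |k (p + t * max (x - p) 0) - k p|) '' Icc 0 1)

theorem O_cont {k : ℝ → ℝ} (hk : Continuous k) (p : ℝ) : Continuous (O k p) := by
  have : Continuous (fun q : ℝ × ℝ => |k (p + q.2 * max (q.1 - p) 0) - k p|) := by
    fun_prop
  exact isCompact_Icc.continuous_sSup (f := fun (x : ℝ) (t : ℝ) =>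
    |k (p + t * max (x - p) 0) - k p|) this

theorem O_nonneg (k : ℝ → ℝ) (p x : ℝ) : 0 ≤ O k p x := by
  apply Real.sSup_nonneg
  rintro _ ⟨t, _, rfl⟩
  positivity

theorem O_le {k : ℝ → ℝ} {p x c : ℝ} (hc : 0 ≤ c) (h : ∀ y ∈ Icc p x, |k y - k p| ≤ c) :
    O k p x ≤ c := by
  apply csSup_le ((nonempty_Icc.2 zero_le_one).image _)
  rintro _ ⟨t, ht, rfl⟩
  show |k (p + t * max (x - p) 0) - k p| ≤ c
  rcases le_total x p with hxp | hxp
  · rw [max_eq_right (by linarith)]
    simpa using hc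
  · rw [max_eq_left (by linarith)]
    apply h
    constructor
    · have := mul_nonneg ht.1 (sub_nonneg.2 hxp)
      linarith
    · have := mul_le_mul_of_nonneg_right ht.2 (sub_nonneg.2 hxp)
      linarith

theorem le_O {k : ℝ → ℝ} (hk : Continuous k) {p x y : ℝ} (hy : y ∈ Icc p x) :
    |k y - k p| ≤ O k p x := by
  have hb : BddAbove ((fun t : ℝ => |k (p + t * max (x - p) 0) - k p|) '' Icc 0 1) := by
    apply IsCompact.bddAbove
    apply isCompact_Icc.image
    fun_prop
  apply le_csSup hb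
  have hpx : p ≤ x := hy.1.trans hy.2
  rcases eq_or_lt_of_le hpx with h | h
  · refine ⟨0, ⟨le_refl _, zero_le_one⟩, ?_⟩
    have : y = p := le_antisymm (by rw [h]; exact hy.2) hy.1
    simp [this]
  · have h' : 0 < x - p := sub_pos.2 h
    refine ⟨(y - p) / (x - p), ⟨div_nonneg (sub_nonneg.2 hy.1) h'.le, ?_⟩, ?_⟩
    · rw [div_le_one h']; linarith [hy.2]
    · show |k (p + (y - p) / (x - p) * max (x - p) 0) - k p| = |k y - k p|
      rw [max_eq_left h'.le, div_mul_cancel₀ _ h'.ne']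
      congr 3
      ring

theorem O_mono {k : ℝ → ℝ} (hk : Continuous k) (p : ℝ) {x x' : ℝ} (h : x ≤ x') :
    O k p x ≤ O k p x' :=
  O_le (O_nonneg _ _ _) fun _ hy => le_O hk ⟨hy.1, hy.2.trans h⟩

theorem O_const {k : ℝ → ℝ} (hk : Continuous k) (p : ℝ) {x y : ℝ}
    (hc : ∀ z ∈ Icc x y, k z = k x) : O k p y ≤ O k p x := by
  apply O_le (O_nonneg _ _ _)
  intro z hz
  rcases le_total z x with h | h
  · exact le_O hk ⟨hz.1, h⟩
  · rw [hc z ⟨h, hz.2⟩]
    rcases le_total p x with h2 | h2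
    · exact le_O hk ⟨h2, le_refl _⟩
    · rw [hc p ⟨h2, hz.1.trans hz.2⟩]
      simpa using O_nonneg _ _ _

noncomputable def w (k : ℝ → ℝ) (x : ℝ) : ℝ :=
  ∑' i : ℕ, (1 / 2 : ℝ) ^ i * min (O k (TopologicalSpace.denseSeq ℝ i) x) 1

theorem term_nonneg (k : ℝ → ℝ) (x : ℝ) (i : ℕ) :
    0 ≤ (1 / 2 : ℝ) ^ i * min (O k (TopologicalSpace.denseSeq ℝ i) x) 1 := by
  apply mul_nonneg (by positivity)
  exact le_min (O_nonneg _ _ _) zero_le_one

theorem term_le (k : ℝ → ℝ) (x : ℝ) (i : ℕ) :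
    (1 / 2 : ℝ) ^ i * min (O k (TopologicalSpace.denseSeq ℝ i) x) 1 ≤ (1 / 2 : ℝ) ^ i := by
  have : min (O k (TopologicalSpace.denseSeq ℝ i) x) 1 ≤ 1 := min_le_right _ _
  have h2 : (0 : ℝ) ≤ (1 / 2 : ℝ) ^ i := by positivity
  nlinarith

theorem summ (k : ℝ → ℝ) (x : ℝ) :
    Summable (fun i : ℕ => (1 / 2 : ℝ) ^ i * min (O k (TopologicalSpace.denseSeq ℝ i) x) 1) :=
  Summable.of_nonneg_of_le (term_nonneg k x) (term_le k x) summable_geometric_two

theorem w_cont {k : ℝ → ℝ} (hk : Continuous k) : Continuous (w k) := by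
  refine continuous_tsum (u := fun i : ℕ => (1 / 2 : ℝ) ^ i) ?_ summable_geometric_two ?_
  · intro i
    exact continuous_const.mul ((O_cont hk _).min continuous_const)
  · intro i x
    rw [Real.norm_of_nonneg (term_nonneg k x i)]
    exact term_le k x i

theorem w_mono {k : ℝ → ℝ} (hk : Continuous k) : Monotone (w k) := by
  intro x y hxy
  apply Summable.tsum_le_tsum _ (summ k x) (summ k y)
  intro i
  exact mul_le_mul_of_nonneg_left (min_le_min_right _ (O_mono hk _ hxy)) (by positivity)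

theorem w_const {k : ℝ → ℝ} (hk : Continuous k) {x y : ℝ} (hxy : x ≤ y)
    (hc : ∀ z ∈ Icc x y, k z = k x) : w k x = w k y := by
  apply le_antisymm (w_mono hk hxy)
  apply Summable.tsum_le_tsum _ (summ k y) (summ k x)
  intro i
  exact mul_le_mul_of_nonneg_left (min_le_min_right _ (O_const hk _ hc)) (by positivity)

theorem w_eq {k : ℝ → ℝ} (hk : Continuous k) {x y : ℝ} (hw : w k x = w k y) :
    ∀ z ∈ Icc x y, k z = k x := by
  intro z hz
  by_contra hne
  have hxz : x < z := lt_of_le_of_ne hz.1 (fun h => hne (by rw [h]))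
  have hop : IsOpen (Ioo x z ∩ {p | k p ≠ k z}) :=
    isOpen_Ioo.inter (isOpen_ne_fun hk continuous_const)
  have hnon : (Ioo x z ∩ {p | k p ≠ k z}).Nonempty := by
    have h1 : ∀ᶠ p in 𝓝[>] x, p ∈ Ioo x z := Ioo_mem_nhdsGT hxz
    have h2 : ∀ᶠ p in 𝓝[>] x, k p ≠ k z :=
      mem_nhdsWithin_of_mem_nhds ((isOpen_ne_fun hk continuous_const).mem_nhds
        (fun h => hne h.symm))
    exact (h1.and h2).exists
  obtain ⟨i, hi⟩ := (TopologicalSpace.denseRange_denseSeq ℝ).exists_mem_open hop hnon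
  have hlt : w k x < w k y := by
    apply Summable.tsum_lt_tsum (i := i) _ _ (summ k x) (summ k y)
    · intro j
      exact mul_le_mul_of_nonneg_left
        (min_le_min_right _ (O_mono hk _ (hz.1.trans hz.2))) (by positivity)
    · apply mul_lt_mul_of_pos_left _ (by positivity)
      have h0 : O k (TopologicalSpace.denseSeq ℝ i) x ≤ 0 := by
        apply O_le le_rfl
        intro y hy
        exact absurd (lt_of_lt_of_le hi.1.1 (hy.1.trans hy.2)) (lt_irrefl _)
      have h1 : 0 < O k (TopologicalSpace.denseSeq ℝ i) y :=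
        lt_of_lt_of_le (abs_pos.2 (sub_ne_zero.2 (fun h => hi.2 h.symm)))
          (le_O hk ⟨hi.1.2.le, hz.2⟩)
      exact lt_of_le_of_lt ((min_le_left _ _).trans h0) (lt_min h1 one_pos)
  exact absurd hw hlt.ne

theorem COL : StmCOL := by
  intro k a b hk hab hne
  have hlt : w k a < w k b := by
    apply lt_of_le_of_ne (w_mono hk hab.le)
    intro h
    exact hne (w_eq hk h b ⟨hab.le, le_refl _⟩).symm
  have hpos : 0 < w k b - w k a := sub_pos.2 hlt
  set W : ℝ → ℝ := fun x => (w k x - w k a) / (w k b - w k a) with hW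
  have hWc : Continuous W := by
    have := w_cont hk
    rw [hW]; fun_prop
  have hWm : Monotone W := by
    intro x y hxy
    have := w_mono hk hxy
    show (w k x - w k a) / (w k b - w k a) ≤ (w k y - w k a) / (w k b - w k a)
    gcongr
  have hWa : W a = 0 := by simp [hW]
  have hWb : W b = 1 := by
    show (w k b - w k a) / (w k b - w k a) = 1
    exact div_self hpos.ne'
  have hWw : ∀ x y, W x = W y → w k x = w k y := by
    intro x y h
    have h' : (w k x - w k a) / (w k b - w k a) = (w k y - w k a) / (w k b - w k a) := h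
    have := (div_left_inj' hpos.ne').1 h'
    linarith
  have hWk : ∀ x y, W x = W y → k x = k y := by
    intro x y h
    rcases le_total x y with hxy | hxy
    · exact (w_eq hk (hWw x y h) y ⟨hxy, le_refl _⟩).symm
    · exact w_eq hk (hWw y x h.symm) x ⟨hxy, le_refl _⟩
  have hsurj : ∀ y, ∃ x, y ∈ Icc (0 : ℝ) 1 → x ∈ Icc a b ∧ W x = y := by
    intro y
    by_cases hy : y ∈ Icc (0 : ℝ) 1
    · have h1 := intermediate_value_Icc hab.le hWc.continuousOn
      rw [hWa, hWb] at h1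
      obtain ⟨x, hx, hxy⟩ := h1 hy
      exact ⟨x, fun _ => ⟨hx, hxy⟩⟩
    · exact ⟨0, fun h => absurd h hy⟩
  choose g hg using hsurj
  have hW01 : ∀ x ∈ Icc a b, W x ∈ Icc (0 : ℝ) 1 := by
    intro x hx
    rw [← hWa, ← hWb]
    exact ⟨hWm hx.1, hWm hx.2⟩
  have hkb : ∀ x ∈ Icc a b, k (g (W x)) = k x := by
    intro x hx
    exact hWk _ _ (hg (W x) (hW01 x hx)).2
  refine ⟨W, fun y => k (g y), hWc.continuousOn, hWm.monotoneOn _, hWa, hWb, ?_, hkb, ?_, ?_⟩
  · rw [continuousOn_iff_isClosed]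
    intro t ht
    refine ⟨W '' (Icc a b ∩ k ⁻¹' t), ?_, ?_⟩
    · exact ((isCompact_Icc.inter_right (ht.preimage hk)).image hWc).isClosed
    · ext y
      constructor
      · rintro ⟨h1, h2⟩
        exact ⟨⟨g y, ⟨(hg y h2).1, h1⟩, (hg y h2).2⟩, h2⟩
      · rintro ⟨⟨x, ⟨hx1, hx2⟩, rfl⟩, h2⟩
        refine ⟨?_, h2⟩
        show k (g (W x)) ∈ t
        rw [hkb x hx1]
        exact hx2
  · intro u v hu huv hv
    obtain ⟨s, hus, hsv⟩ := exists_between huv
    obtain ⟨t, hst, htv⟩ := exists_between hsv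
    have hs1 : s ∈ Icc (0 : ℝ) 1 := ⟨by linarith, by linarith⟩
    have ht1 : t ∈ Icc (0 : ℝ) 1 := ⟨by linarith, by linarith⟩
    obtain ⟨gs1, gs2⟩ := hg s hs1
    obtain ⟨gt1, gt2⟩ := hg t ht1
    have hle : g s ≤ g t := by
      by_contra hcon
      have := hWm (not_le.1 hcon).le
      rw [gs2, gt2] at this
      linarith
    have hex : ∃ z ∈ Icc (g s) (g t), k z ≠ k (g s) := by
      by_contra hcon
      push Not at hcon
      have h1 := w_const hk hle hcon
      have h2 : W (g s) = W (g t) := by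
        show (w k (g s) - w k a) / (w k b - w k a) = (w k (g t) - w k a) / (w k b - w k a)
        rw [h1]
      rw [gs2, gt2] at h2
      linarith
    obtain ⟨z, hz, hzk⟩ := hex
    have hzab : z ∈ Icc a b := ⟨gs1.1.trans hz.1, hz.2.trans gt1.2⟩
    have hz1 : s ≤ W z := by rw [← gs2]; exact hWm hz.1
    have hz2 : W z ≤ t := by rw [← gt2]; exact hWm hz.2
    have hkk : k (g s) ≠ k (g (W z)) := by
      rw [hkb z hzab]; exact hzk.symm
    refine ⟨s, W z, ⟨hus, hsv⟩, ⟨by linarith, by linarith⟩, ?_, hkk⟩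
    exact lt_of_le_of_ne hz1 (fun h => hkk (by rw [← h]))
  · apply Set.Countable.mono _ ((countable_range (fun q : ℚ => W (q : ℝ))))
    rintro y ⟨s, t, hs, ht, hst, hsy, hty⟩
    obtain ⟨q, hq1, hq2⟩ := exists_rat_btwn hst
    refine ⟨q, ?_⟩
    apply le_antisymm
    · rw [← hty]; exact hWm hq2.le
    · rw [← hsy]; exact hWm hq1.le

end Pool.Agent.R964.WM
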