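import Pool.Agent.R135.WM.Stm

/-! Project WM, piece RANK (second independent proof). -/

set_option autoImplicit false

namespace Pool.Agent.R135.WM

open Set Topology Filter

namespace RANKb

lemma levR_inf {p : ℕ} (b : Fin p → ℕ → Bool) (h : ∀ i, ¬ {s | b i s = true}.Finite) :
    levR b = p := by
  unfold levR
  have h0 : {i | i = p ∨ ∃ h : i < p, {s | b ⟨i, h⟩ s = true}.Finite} = {p} := by
    ext i
    simp only [mem_setOf_eq, mem_singleton_iff]
    constructor
    · rintro (h1 | ⟨h1, h2⟩)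
      · exact h1
      · exact absurd h2 (h ⟨i, h1⟩)
    · exact Or.inl
  rw [h0, csInf_singleton]

/-- adding a last row -/
def ex {p : ℕ} (r : ℕ → Bool) (c : Fin p → ℕ → Bool) : Fin (p + 1) → ℕ → Bool :=
  fun i => if h : (i : ℕ) < p then c ⟨i, h⟩ else r

lemma ex_lt {p : ℕ} (r : ℕ → Bool) (c : Fin p → ℕ → Bool) (i : ℕ) (h : i < p) (h' : i < p + 1) :
    ex r c ⟨i, h'⟩ = c ⟨i, h⟩ := by
  unfold ex
  rw [dif_pos (show ((⟨i, h'⟩ : Fin (p + 1)) : ℕ) < p from h)]

lemma ex_last {p : ℕ} (r : ℕ → Bool) (c : Fin p → ℕ → Bool) (h' : p < p + 1) :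
    ex r c ⟨p, h'⟩ = r := by
  unfold ex
  rw [dif_neg (show ¬ ((⟨p, h'⟩ : Fin (p + 1)) : ℕ) < p from lt_irrefl _)]

lemma ex_cont {p : ℕ} (r : ℕ → Bool) : Continuous (ex (p := p) r) := by
  refine continuous_pi fun i => ?_
  unfold ex
  by_cases h : (i : ℕ) < p
  · simp only [dif_pos h]; exact continuous_apply _
  · simp only [dif_neg h]; exact continuous_const

lemma levR_ex {p : ℕ} (r : ℕ → Bool) (c : Fin p → ℕ → Bool) (hr : {s | r s = true}.Finite) :
    levR (ex r c) = levR c := by
  unfold levR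
  have hB : p ∈ {i | i = p ∨ ∃ h : i < p, {s | c ⟨i, h⟩ s = true}.Finite} := Or.inl rfl
  have hA : p + 1 ∈ {i | i = p + 1 ∨ ∃ h : i < p + 1, {s | ex r c ⟨i, h⟩ s = true}.Finite} :=
    Or.inl rfl
  apply le_antisymm
  · apply Nat.sInf_le
    rcases Nat.sInf_mem ⟨p, hB⟩ with h | ⟨h, h1⟩
    · refine Or.inr ⟨by rw [h]; exact Nat.lt_succ_self p, ?_⟩
      have e : ∀ (i : ℕ) (hi : i < p + 1), i = p → {s | ex r c ⟨i, hi⟩ s = true}.Finite := by
        rintro i hi rfl
        rw [ex_last]
        exact hr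
      exact e _ _ h
    · refine Or.inr ⟨by omega, ?_⟩
      rw [ex_lt r c _ h]
      exact h1
  · have h2 : sInf {i | i = p ∨ ∃ h : i < p, {s | c ⟨i, h⟩ s = true}.Finite} ≤ p := Nat.sInf_le hB
    rcases Nat.sInf_mem ⟨p + 1, hA⟩ with h | ⟨h, h1⟩
    · rw [h]; omega
    · by_cases h3 : sInf {i | i = p + 1 ∨ ∃ h : i < p + 1, {s | ex r c ⟨i, h⟩ s = true}.Finite} < p
      · apply Nat.sInf_le
        refine Or.inr ⟨h3, ?_⟩
        rw [ex_lt r c _ h3] at h1
        exact h1
      · exact h2.trans (not_lt.1 h3)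

lemma rows_dense {q : ℕ} (i : Fin q) (s : ℕ) :
    IsOpen {b : Fin q → ℕ → Bool | ∃ s' ≥ s, b i s' = true} ∧
      Dense {b : Fin q → ℕ → Bool | ∃ s' ≥ s, b i s' = true} := by
  constructor
  · have e : {b : Fin q → ℕ → Bool | ∃ s' ≥ s, b i s' = true} =
        ⋃ s' : {s' // s' ≥ s}, (fun b : Fin q → ℕ → Bool => b i s') ⁻¹' {true} := by
      ext b
      simp only [mem_setOf_eq, mem_iUnion, mem_preimage, mem_singleton_iff, Subtype.exists,
        exists_prop]
    rw [e]
    refine isOpen_iUnion fun s' => (isOpen_discrete _).preimage ?_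
    exact (continuous_apply (s' : ℕ)).comp (continuous_apply i)
  · intro b
    have h1 : Tendsto (fun n : ℕ => (fun i' s' => if i' = i ∧ s' = n then true else b i' s' :
        Fin q → ℕ → Bool)) atTop (𝓝 b) := by
      rw [tendsto_pi_nhds]
      intro i'
      rw [tendsto_pi_nhds]
      intro s'
      refine tendsto_const_nhds.congr' ?_
      filter_upwards [eventually_gt_atTop s'] with n hn
      rw [if_neg]
      rintro ⟨-, h⟩
      omega
    refine mem_closure_of_tendsto h1 ?_
    filter_upwards [eventually_ge_atTop s] with n hn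
    exact ⟨n, hn, by simp⟩

theorem main : ∀ (p : ℕ) (e : (Fin p → ℕ → Bool) → ℕ), (∀ i, FS {b | e b ≤ i}) →
    ∀ U : Set (Fin p → ℕ → Bool), IsOpen U → U.Nonempty →
    (∀ b ∈ U, (Even (e b) ↔ Even (levR b))) → ∃ b ∈ U, p ≤ e b := by
  classical
  intro p
  induction p with
  | zero =>
    intro e _ U _ hne _
    obtain ⟨b, hb⟩ := hne
    exact ⟨b, hb, Nat.zero_le _⟩
  | succ p ih =>
    intro e hFS U hU hne hpar
    choose E hEc hEu using hFS
    have hall : ⋃ jm : ℕ × ℕ, E jm.1 jm.2 = univ := by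
      refine eq_univ_of_forall fun b => ?_
      have h1 : b ∈ ⋃ m, E (e b) m := by rw [hEu]; exact (le_refl (e b) : e b ≤ e b)
      obtain ⟨m, hm⟩ := mem_iUnion.1 h1
      exact mem_iUnion.2 ⟨(e b, m), hm⟩
    have hd := dense_iUnion_interior_of_closed (fun jm : ℕ × ℕ => hEc jm.1 jm.2) hall
    have hex : ∃ j, ∃ m, (interior (E j m) ∩ U).Nonempty := by
      obtain ⟨b, hbU, hb⟩ := hd.inter_open_nonempty U hU hne
      obtain ⟨jm, hjm⟩ := mem_iUnion.1 hb
      exact ⟨jm.1, jm.2, b, hjm, hbU⟩
    obtain ⟨j0, hj0⟩ : ∃ j0, j0 = Nat.find hex := ⟨_, rfl⟩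
    obtain ⟨m0, hm0⟩ := Nat.find_spec hex
    rw [← hj0] at hm0
    have hmin : ∀ j < j0, ∀ m, ¬ (interior (E j m) ∩ U).Nonempty := by
      intro j hj m hm
      rw [hj0] at hj
      exact Nat.find_min hex hj ⟨m, hm⟩
    obtain ⟨U', hU'⟩ : ∃ U', U' = interior (E j0 m0) ∩ U := ⟨_, rfl⟩
    rw [← hU'] at hm0
    have hU'o : IsOpen U' := by rw [hU']; exact isOpen_interior.inter hU
    have hU'U : U' ⊆ U := by rw [hU']; exact inter_subset_right
    have hle : ∀ b ∈ U', e b ≤ j0 := by
      intro b hb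
      rw [hU'] at hb
      have h1 : b ∈ ⋃ m, E j0 m := mem_iUnion.2 ⟨m0, interior_subset hb.1⟩
      rw [hEu] at h1
      exact h1
    -- a generic point
    obtain ⟨g, hgU, hg1, hg2⟩ : ∃ g ∈ U', (∀ j < j0, ∀ m, g ∉ E j m) ∧
        ∀ i s, ∃ s' ≥ s, g i s' = true := by
      let F : (ℕ × ℕ) ⊕ (Fin (p + 1) × ℕ) → Set (Fin (p + 1) → ℕ → Bool) := fun x =>
        match x with
        | Sum.inl jm => if jm.1 < j0 then (E jm.1 jm.2)ᶜ ∪ (closure U')ᶜ else univ
        | Sum.inr is => {b | ∃ s' ≥ is.2, b is.1 s' = true}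
      have hFo : ∀ x, IsOpen (F x) := by
        rintro (⟨j, m⟩ | ⟨i, s⟩)
        · show IsOpen (if j < j0 then (E j m)ᶜ ∪ (closure U')ᶜ else univ)
          split_ifs
          · exact (hEc j m).isOpen_compl.union isClosed_closure.isOpen_compl
          · exact isOpen_univ
        · exact (rows_dense i s).1
      have hFd : ∀ x, Dense (F x) := by
        rintro (⟨j, m⟩ | ⟨i, s⟩)
        · show Dense (if j < j0 then (E j m)ᶜ ∪ (closure U')ᶜ else univ)
          split_ifs with hj
          · rw [dense_iff_inter_open]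
            intro V hV hVne
            by_cases hVc : V ⊆ closure U'
            · obtain ⟨v, hv⟩ := hVne
              have h1 : (V ∩ U').Nonempty := mem_closure_iff.1 (hVc hv) V hV hv
              by_contra hcon
              have h2 : V ∩ U' ⊆ E j m := by
                intro x hx
                by_contra hxE
                exact hcon ⟨x, hx.1, Or.inl hxE⟩
              obtain ⟨x, hx⟩ := h1
              exact hmin j hj m ⟨x, (hV.inter hU'o).subset_interior_iff.2 h2 hx, hU'U hx.2⟩
            · obtain ⟨x, hx, hx'⟩ := not_subset.1 hVc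
              exact ⟨x, hx, Or.inr hx'⟩
          · exact dense_univ
        · exact (rows_dense i s).2
      obtain ⟨g, hgU, hg⟩ := (dense_iInter_of_isOpen hFo hFd).inter_open_nonempty U' hU'o hm0
      refine ⟨g, hgU, fun j hj m hm => ?_, fun i s => ?_⟩
      · have h1 : g ∈ (if j < j0 then (E j m)ᶜ ∪ (closure U')ᶜ else univ) :=
          mem_iInter.1 hg (Sum.inl (j, m))
        rw [if_pos hj] at h1
        rcases h1 with h | h
        · exact h hm
        · exact h (subset_closure hgU)
      · exact mem_iInter.1 hg (Sum.inr (i, s))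
    have hge : e g = j0 := by
      refine le_antisymm (hle g hgU) ?_
      by_contra hcon
      have h1 : g ∈ ⋃ m, E (e g) m := by rw [hEu]; exact (le_refl (e g) : e g ≤ e g)
      obtain ⟨m, hm⟩ := mem_iUnion.1 h1
      exact hg1 (e g) (not_le.1 hcon) m hm
    have hglev : levR g = p + 1 := by
      apply levR_inf
      intro i hfin
      obtain ⟨N, hN⟩ := hfin.bddAbove
      obtain ⟨s', hs', h⟩ := hg2 i (N + 1)
      have := hN h
      omega
    have hpar0 := hpar g (hU'U hgU)
    rw [hge, hglev] at hpar0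
    -- the slice
    obtain ⟨n, hn⟩ : ∃ n : ℕ, ex (p := p) (fun s => if s < n then g (Fin.last p) s else false)
        (fun i => g i.castSucc) ∈ U' := by
      have h1 : Tendsto (fun n : ℕ => ex (p := p) (fun s => if s < n then g (Fin.last p) s else false)
          (fun i => g i.castSucc)) atTop (𝓝 g) := by
        rw [tendsto_pi_nhds]
        intro i
        rw [tendsto_pi_nhds]
        intro s
        refine tendsto_const_nhds.congr' ?_
        filter_upwards [eventually_gt_atTop s] with n hn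
        unfold ex
        by_cases h : (i : ℕ) < p
        · rw [dif_pos h]; rfl
        · rw [dif_neg h, if_pos hn]
          have : i = Fin.last p := by
            apply Fin.ext
            have := i.2
            simp only [Fin.val_last]
            omega
          rw [this]
      obtain ⟨n, hn⟩ := (h1.eventually (hU'o.mem_nhds hgU)).exists
      exact ⟨n, hn⟩
    obtain ⟨r, hr⟩ : ∃ r : ℕ → Bool, r = fun s => if s < n then g (Fin.last p) s else false :=
      ⟨_, rfl⟩
    rw [← hr] at hn
    have hrf : {s | r s = true}.Finite := by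
      refine (Set.finite_lt_nat n).subset fun s hs => ?_
      rw [hr] at hs
      by_contra hcon
      have h1 : (if s < n then g (Fin.last p) s else false) = true := hs
      have hcon' : ¬ s < n := hcon
      rw [if_neg hcon'] at h1
      exact absurd h1 (by simp)
    obtain ⟨c, hc, hpc⟩ := ih (fun c => e (ex r c)) (fun i => ⟨fun m => ex r ⁻¹' E i m,
      fun m => (hEc i m).preimage (ex_cont r), by
        rw [← preimage_iUnion, hEu]; rfl⟩) (ex r ⁻¹' U') (hU'o.preimage (ex_cont r)) ⟨_, hn⟩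
      (fun c hc => by rw [hpar _ (hU'U hc), levR_ex r c hrf])
    have h1 : p ≤ j0 := hpc.trans (hle _ hc)
    refine ⟨g, hU'U hgU, ?_⟩
    rw [hge]
    rcases h1.eq_or_lt with h | h
    · exfalso
      rw [← h, Nat.even_add_one] at hpar0
      tauto
    · omega

end RANKb

theorem rankb : StmRANK := by
  intro p e hFS hpar
  obtain ⟨b, -, hb⟩ := RANKb.main p e hFS univ isOpen_univ univ_nonempty fun b _ => hpar b
  exact ⟨b, hb⟩

end Pool.Agent.R135.WM
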