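import Pool.Agent.R135.WM.BCP
import Pool.Agent.R135.WM.BF
import Pool.Agent.R135.WM.BLK
import Pool.Agent.R135.WM.BLOW
import Pool.Agent.R964.WM.C1b
import Pool.Agent.R135.WM.C2
import Pool.Agent.R135.WM.CASM
import Pool.Agent.R964.WM.COL
import Pool.Agent.R135.WM.FIN
import Pool.Agent.R135.WM.GAP
import Pool.Agent.R135.WM.HB
import Pool.Agent.R135.WM.HF
import Pool.Agent.R135.WM.HIT
import Pool.Agent.R135.WM.LIFT
import Pool.Agent.R135.WM.LIM
import Pool.Agent.R135.WM.MAIN
import Pool.Agent.R135.WM.NEQ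
import Pool.Agent.R135.WM.NOC
import Pool.Agent.R964.WM.RANKb
import Pool.Agent.R135.WM.STD
import Pool.Agent.R135.WM.STEP
import Pool.Agent.R135.WM.VAL

namespace Pool.Agent.R964.WM
open Pool.Agent.R135.WM

theorem final : Final :=
  Pool.Agent.R135.WM.fin (std val (bcp val) (casm c1b c2) blk) blow
    (main (bf gap step lim) Pool.Agent.R964.WM.COL hit hf hb lift) noc (neq val (bcp val) rankb)

end Pool.Agent.R964.WM
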