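import Pool.Agent.R135.WM.Stm

/-! WM-BF: assembly of the back-and-forth. -/

namespace Pool.Agent.R964.WM

open Set Topology Pool.Agent.R135.WM

theorem PI_swap {R : ℝ → ℝ → Prop} {G : Set (ℝ × ℝ)} (h : PI R G) :
    PI (fun x y => R y x) (Prod.swap '' G) := by
  have himg1 : Prod.fst '' (Prod.swap '' G) = Prod.snd '' G := by
    rw [image_image]; rfl
  have himg2 : Prod.snd '' (Prod.swap '' G) = Prod.fst '' G := by
    rw [image_image]; rfl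
  refine ⟨⟨_, h.zero, rfl⟩, ⟨_, h.one, rfl⟩, ?_, ?_, ?_, ?_, ?_⟩
  · rintro _ ⟨g, hg, rfl⟩
    exact ⟨(h.box g hg).2, (h.box g hg).1⟩
  · rintro _ ⟨g, hg, rfl⟩ _ ⟨g', hg', rfl⟩
    exact (h.ord g hg g' hg').symm
  · rw [himg1]; exact h.cl2
  · rw [himg2]; exact h.cl1
  · rintro _ ⟨g, hg, rfl⟩
    rcases h.rel g hg with h1 | h1 | h1
    · left; rw [h1]; rfl
    · right; left; rw [h1]; rfl
    · right; right; exact h1

theorem BF : StmBF := by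
  intro hGAP hSTEP hLIM R κ κ' hκ hκ' hd hd' hf hb
  have hstep0 := hSTEP hGAP
  have step1 : ∀ (j : ℕ) (G : Set (ℝ × ℝ)), PI R G →
      ∃ G' : Set (ℝ × ℝ), G ⊆ G' ∧ PI R G' ∧ κ j ⊆ Prod.fst '' G' := fun j G hG =>
    hstep0 R G (κ j) hG (hκ j).1 (hκ j).2.1 (hκ j).2.2 (hf j)
  have step2 : ∀ (j : ℕ) (G : Set (ℝ × ℝ)), PI R G →
      ∃ G' : Set (ℝ × ℝ), G ⊆ G' ∧ PI R G' ∧ κ' j ⊆ Prod.snd '' G' := by
    intro j G hG
    obtain ⟨G', h1, h2, h3⟩ := hstep0 (fun x y => R y x) (Prod.swap '' G) (κ' j) (PI_swap hG)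
      (hκ' j).1 (hκ' j).2.1 (hκ' j).2.2 (hb j)
    refine ⟨Prod.swap '' G', ?_, ?_, ?_⟩
    · intro g hg
      exact ⟨g.swap, h1 ⟨g, hg, rfl⟩, by simp⟩
    · exact PI_swap h2
    · rw [image_image]; exact h3
  have step : ∀ (j : ℕ) (G : Set (ℝ × ℝ)), ∃ G' : Set (ℝ × ℝ), PI R G → (G ⊆ G' ∧ PI R G' ∧
      κ j ⊆ Prod.fst '' G' ∧ κ' j ⊆ Prod.snd '' G') := by
    intro j G
    by_cases hG : PI R G
    · obtain ⟨G1, a1, a2, a3⟩ := step1 j G hG
      obtain ⟨G2, b1, b2, b3⟩ := step2 j G1 a2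
      exact ⟨G2, fun _ => ⟨a1.trans b1, b2, a3.trans (image_mono b1), b3⟩⟩
    · exact ⟨G, fun h => absurd h hG⟩
  choose F hF using step
  let G : ℕ → Set (ℝ × ℝ) := fun n => Nat.rec {((0 : ℝ), (0 : ℝ)), ((1 : ℝ), (1 : ℝ))}
    (fun n G => F n G) n
  have hG0 : PI R (G 0) := by
    have e0 : G 0 = {((0 : ℝ), (0 : ℝ)), ((1 : ℝ), (1 : ℝ))} := rfl
    rw [e0]
    refine ⟨by simp, by simp, ?_, ?_, ?_, ?_, ?_⟩
    · rintro g (rfl | rfl) <;> simp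
    · rintro g (rfl | rfl) h (rfl | rfl) <;> simp
    · apply Set.Finite.isClosed
      exact (Set.toFinite _).image _
    · apply Set.Finite.isClosed
      exact (Set.toFinite _).image _
    · rintro g (rfl | rfl)
      · left; rfl
      · right; left; rfl
  have hGs : ∀ n, G (n + 1) = F n (G n) := fun n => rfl
  have hG : ∀ n, PI R (G n) := by
    intro n
    induction n with
    | zero => exact hG0
    | succ n ih => rw [hGs]; exact (hF n (G n) ih).2.1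
  have hmono : Monotone G := monotone_nat_of_le_succ fun n => by
    rw [hGs]; exact (hF n (G n) (hG n)).1
  have hc1 : ∀ j, κ j ⊆ Prod.fst '' G (j + 1) := fun j => by
    rw [hGs]; exact (hF j (G j) (hG j)).2.2.1
  have hc2 : ∀ j, κ' j ⊆ Prod.snd '' G (j + 1) := fun j => by
    rw [hGs]; exact (hF j (G j) (hG j)).2.2.2
  have hU : ∀ g, g ∈ (⋃ n, G n) ↔ ∃ n, g ∈ G n := fun g => mem_iUnion
  obtain ⟨θ, t1, t2, t3, t4, t5⟩ := hLIM (⋃ n, G n) ((hU _).2 ⟨0, (hG 0).zero⟩)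
    ((hU _).2 ⟨0, (hG 0).one⟩)
    (by
      intro g hg
      obtain ⟨n, hn⟩ := (hU g).1 hg
      exact (hG n).box g hn)
    (by
      intro g hg h hh
      obtain ⟨n, hn⟩ := (hU g).1 hg
      obtain ⟨m, hm⟩ := (hU h).1 hh
      exact (hG (max n m)).ord g (hmono (le_max_left n m) hn) h (hmono (le_max_right n m) hm))
    (by
      intro a b ha hab hb1
      obtain ⟨j, x, hx, hx2⟩ := hd a b ha hab hb1
      obtain ⟨g, hg, rfl⟩ := hc1 j hx
      exact ⟨g, (hU g).2 ⟨j + 1, hg⟩, hx2⟩)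
    (by
      intro a b ha hab hb1
      obtain ⟨j, x, hx, hx2⟩ := hd' a b ha hab hb1
      obtain ⟨g, hg, rfl⟩ := hc2 j hx
      exact ⟨g, (hU g).2 ⟨j + 1, hg⟩, hx2⟩)
  refine ⟨θ, t1, t2, t3, t4, ?_, ?_⟩
  · intro j x hx
    obtain ⟨g, hg, rfl⟩ := hc1 j hx
    have hgx := (hκ j).2.1 hx
    rcases (hG (j + 1)).rel g hg with h1 | h1 | h1
    · rw [h1] at hgx; exact absurd hgx.1 (lt_irrefl _)
    · rw [h1] at hgx; exact absurd hgx.2 (lt_irrefl _)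
    · rw [t5 g ((hU g).2 ⟨j + 1, hg⟩)]; exact h1
  · intro j x hx hx'
    obtain ⟨g, hg, hgx⟩ := hc2 j hx'
    have hgI := (hκ' j).2.1 hx'
    have hgU := (hU g).2 ⟨j + 1, hg⟩
    have hgθ : θ g.1 = θ x := by rw [t5 g hgU, hgx]
    have hg1 : g.1 = x := t1.injOn ((hG (j + 1)).box g hg).1 hx hgθ
    rcases (hG (j + 1)).rel g hg with h1 | h1 | h1
    · rw [← hgx, h1] at hgI; exact absurd hgI.1 (lt_irrefl _)
    · rw [← hgx, h1] at hgI; exact absurd hgI.2 (lt_irrefl _)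
    · rw [hgx, hg1] at h1; exact h1

end Pool.Agent.R964.WM
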